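import Pool.Agent.H7.RhoV.Tail2

/-!
# Rankin's trick with exponent `log u / log w`

With `u = log M / log w`: the mass of the smooth parts beyond `M` is at most
`exp (- (1 - ε) u log u)`.
-/

set_option autoImplicit false

open Finset Real
open Pool.Agent.H85.Rho hiding PP MM TT

namespace RHC

open RhoU RhoV

/-- `exp z - 1 ≤ z (exp t - 1) / t` for `0 ≤ z ≤ t`. -/
theorem exp_chord {t z : ℝ} (ht : 0 < t) (hz0 : 0 ≤ z) (hzt : z ≤ t) :
    Real.exp z - 1 ≤ (Real.exp t - 1) / t * z := by
  have h := convexOn_exp.2 (Set.mem_univ (0 : ℝ)) (Set.mem_univ t)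
    (show 0 ≤ 1 - z / t by rw [sub_nonneg, div_le_one ht]; exact hzt)
    (show 0 ≤ z / t by positivity) (by ring)
  simp only [smul_eq_mul, mul_zero, zero_add, Real.exp_zero, mul_one] at h
  have e : z / t * t = z := by field_simp
  rw [e] at h
  calc Real.exp z - 1 ≤ 1 - z / t + z / t * Real.exp t - 1 := by linarith
    _ = (Real.exp t - 1) / t * z := by
      field_simp
      ring

theorem localS {p : ℕ} (hp : p.Prime) {s t : ℝ} (hs0 : 0 ≤ s) (hs1 : s ≤ 1 / 10) (ht : 0 < t)
    (hsp : s * Real.log p ≤ t) (M : ℕ) :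
    ∑ k ∈ range (M + 1), hh p k * ((p : ℝ) ^ s) ^ k ≤
      1 + 5 * ((Real.exp t - 1) / t) * (s * (Real.log p / p)) := by
  have hp2 : (2 : ℝ) ≤ p := by exact_mod_cast hp.two_le
  have hp0 : (0 : ℝ) < p := by linarith
  have hlp : 0 ≤ Real.log p := Real.log_natCast_nonneg p
  set x : ℝ := (p : ℝ) ^ (s - 1) with hx
  have hx0 : 0 < x := by positivity
  have hx1 : x ≤ 3 / 5 := by
    have h1 : x ≤ (2 : ℝ) ^ (s - 1) := by
      rw [hx]
      exact Real.rpow_le_rpow_of_nonpos (by norm_num) hp2 (by linarith)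
    have h2 : (2 : ℝ) ^ (s - 1) ≤ (2 : ℝ) ^ (-(9 / 10) : ℝ) :=
      Real.rpow_le_rpow_of_exponent_le (by norm_num) (by linarith)
    have h3 : (2 : ℝ) ^ (-(9 / 10) : ℝ) ≤ 3 / 5 := by
      have h4 : ((2 : ℝ) ^ (-(9 / 10) : ℝ)) ^ 10 ≤ (3 / 5 : ℝ) ^ 10 := by
        rw [← Real.rpow_natCast, ← Real.rpow_mul (by norm_num)]
        have : (-(9 / 10) : ℝ) * ((10 : ℕ) : ℝ) = ((-9 : ℤ) : ℝ) := by norm_num
        rw [this, Real.rpow_intCast]
        norm_num
      exact le_of_pow_le_pow_left₀ (by norm_num) (by norm_num) h4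
    linarith
  have hxs : x = (p : ℝ) ^ s / p := by
    rw [hx, Real.rpow_sub hp0, Real.rpow_one]
  have hps : (p : ℝ) ^ s - 1 ≤ (Real.exp t - 1) / t * (s * Real.log p) := by
    rw [Real.rpow_def_of_pos hp0, mul_comm (Real.log p) s]
    exact exp_chord ht (mul_nonneg hs0 hlp) hsp
  rw [sum_range_succ']
  have h1 : ∑ k ∈ range M, hh p (k + 1) * ((p : ℝ) ^ s) ^ (k + 1) = x * ∑ k ∈ range M, x ^ k := by
    rw [mul_sum]
    refine sum_congr rfl fun k _ => ?_
    unfold hh
    rw [if_neg (Nat.succ_ne_zero k), ← inv_pow, ← mul_pow, ← pow_succ']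
    congr 1
    rw [hx, Real.rpow_sub hp0, Real.rpow_one]
    field_simp
  have h2 : hh p 0 * ((p : ℝ) ^ s) ^ 0 = ((p : ℝ) - 2) / (p - 1) := by
    unfold hh
    rw [if_pos rfl, pow_zero, mul_one]
  have h3 : x * ∑ k ∈ range M, x ^ k ≤ x / (1 - x) := by
    rw [le_div_iff₀ (by linarith)]
    have h4 := geom_sum_mul_neg x M
    have h5 : 0 ≤ x ^ M := by positivity
    have h6 : (∑ k ∈ range M, x ^ k) * (1 - x) ≤ 1 := by rw [h4]; linarith
    nlinarith
  rw [h1, h2]
  have hp1 : (0 : ℝ) < p - 1 := by linarith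
  have h7 : x / (1 - x) + ((p : ℝ) - 2) / (p - 1) = 1 + (p * x - 1) / ((1 - x) * (p - 1)) := by
    have : (1 - x) ≠ 0 := by linarith
    field_simp
    ring
  have h8 : (p * x - 1) / ((1 - x) * (p - 1)) ≤
      5 * ((Real.exp t - 1) / t) * (s * (Real.log p / p)) := by
    have h9 : p * x - 1 ≤ (Real.exp t - 1) / t * (s * Real.log p) := by
      rw [hxs, mul_div_cancel₀ _ hp0.ne']
      exact hps
    have h10 : (p : ℝ) / 5 ≤ (1 - x) * (p - 1) := by nlinarith
    have hE : 0 ≤ (Real.exp t - 1) / t := by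
      have := Real.add_one_le_exp t
      exact div_nonneg (by linarith) ht.le
    have h11 : 0 ≤ (Real.exp t - 1) / t * (s * Real.log p) := by positivity
    calc (p * x - 1) / ((1 - x) * (p - 1)) ≤
          (Real.exp t - 1) / t * (s * Real.log p) / ((1 - x) * (p - 1)) :=
          div_le_div_of_nonneg_right h9 (mul_pos (by linarith) hp1).le
      _ ≤ (Real.exp t - 1) / t * (s * Real.log p) / (p / 5) :=
          div_le_div_of_nonneg_left h11 (by positivity) h10
      _ = 5 * ((Real.exp t - 1) / t) * (s * (Real.log p / p)) := by field_simp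
  linarith

/-- **Rankin's bound** with the exponent `t / log w`. -/
theorem rankinS (w M : ℕ) {t : ℝ} (ht : 1 ≤ t) (hw : 10 * t ≤ Real.log w) :
    ∑ m ∈ Sm w M, fw w m / m * (m : ℝ) ^ (t / Real.log w) ≤ Real.exp (10 * Real.exp t) := by
  have ht0 : 0 < t := by linarith
  have hlw : 10 ≤ Real.log w := by linarith
  have hw0 : (0 : ℝ) < w := by
    by_contra hcon
    push Not at hcon
    have : (w : ℝ) = 0 := le_antisymm hcon (Nat.cast_nonneg w)
    rw [this, Real.log_zero] at hlw
    linarith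
  set s : ℝ := t / Real.log w with hs
  have hs0 : 0 ≤ s := by positivity
  have hs1 : s ≤ 1 / 10 := by
    rw [hs, div_le_div_iff₀ (by linarith) (by norm_num)]
    linarith
  have h1 : ∑ m ∈ Sm w M, fw w m / m * (m : ℝ) ^ s ≤
      ∑ e ∈ Bx w M, fw w (mk w e) / (mk w e : ℝ) * ((mk w e : ℕ) : ℝ) ^ s := by
    rw [← sum_image (f := fun m : ℕ => fw w m / (m:ℝ) * (m : ℝ) ^ s) (g := mk w)
      (fun e _ e' _ h => mk_inj h)]
    refine sum_le_sum_of_subset_of_nonneg ?_ (fun m _ _ =>
          mul_nonneg (div_nonneg (fw_nonneg w m) (by positivity)) (by positivity))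
    intro m hm
    rw [mem_image]
    exact exists_mk w M m hm
  refine h1.trans ?_
  have h2 : ∀ e : PT w → ℕ, fw w (mk w e) / (mk w e : ℝ) * ((mk w e : ℕ) : ℝ) ^ s =
      ∏ i : PT w, (hh i (e i) * (((i : ℕ) : ℝ) ^ s) ^ (e i)) := by
    intro e
    rw [fw_mk, prod_mul_distrib]
    congr 1
    have h3 : (mk w e : ℝ) = ∏ i : PT w, ((i : ℕ) : ℝ) ^ e i := by
      unfold Pool.Agent.H85.Rho.mk
      push_cast
      rfl
    rw [h3, ← Real.finsetProd_rpow _ _ (fun i _ => by positivity)]
    refine prod_congr rfl fun i _ => ?_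
    rw [← Real.rpow_natCast, ← Real.rpow_mul (by positivity), ← Real.rpow_natCast,
      ← Real.rpow_mul (by positivity), mul_comm]
  simp_rw [h2]
  unfold Bx
  rw [← prod_univ_sum (fun _ : PT w => range (M + 1))
    (fun i k => hh i k * (((i : ℕ) : ℝ) ^ s) ^ k)]
  have hi : ∀ i : PT w, s * Real.log (i : ℕ) ≤ t := by
    intro i
    have h3 := mem_pr.mp i.2
    have h4 : Real.log (i : ℕ) ≤ Real.log w :=
      Real.log_le_log (by exact_mod_cast h3.2.pos) (by exact_mod_cast h3.1.2)
    rw [hs, div_mul_eq_mul_div, div_le_iff₀ (by linarith)]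
    exact mul_le_mul_of_nonneg_left h4 ht0.le
  obtain ⟨E, hE⟩ : ∃ E, E = (Real.exp t - 1) / t := ⟨_, rfl⟩
  have hE0 : 0 ≤ E := by
    have := Real.add_one_le_exp t
    rw [hE]
    exact div_nonneg (by linarith) ht0.le
  calc ∏ i : PT w, ∑ k ∈ range (M + 1), hh i k * (((i : ℕ) : ℝ) ^ s) ^ k ≤
      ∏ i : PT w, Real.exp (5 * E * (s * (Real.log (i : ℕ) / (i : ℕ)))) := by
        apply prod_le_prod
        · intro i _
          exact sum_nonneg fun k _ => mul_nonneg (hh_nonneg (PT_prime i) k) (by positivity)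
        · intro i _
          refine (localS (PT_prime i) hs0 hs1 ht0 (hi i) M).trans ?_
          have := Real.add_one_le_exp (5 * E * (s * (Real.log (i : ℕ) / (i : ℕ))))
          rw [← hE]
          linarith
    _ = Real.exp (5 * E * (s * ∑ p ∈ pr 0 w, Real.log p / p)) := by
        rw [← Real.exp_sum, ← mul_sum, ← mul_sum,
          sum_coe_sort (pr 0 w) (fun p : ℕ => Real.log p / p)]
    _ ≤ Real.exp (10 * Real.exp t) := by
        apply Real.exp_le_exp.mpr
        have h5 : ∑ p ∈ pr 0 w, Real.log p / p ≤ Real.log w + Real.log 4 := by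
          have h6 : 1 ≤ w := by
            have : 0 < w := by exact_mod_cast hw0
            omega
          exact AA_le h6
        have h7 : Real.log 4 ≤ Real.log w := by
          have : Real.log 4 = 2 * Real.log 2 := by
            rw [show (4 : ℝ) = 2 ^ 2 by norm_num, Real.log_pow]; norm_num
          have := Real.log_two_lt_d9
          linarith
        have h8 : s * ∑ p ∈ pr 0 w, Real.log p / p ≤ s * (2 * Real.log w) :=
          mul_le_mul_of_nonneg_left (by linarith) hs0
        have h9 : s * (2 * Real.log w) = 2 * t := by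
          rw [hs]
          have : Real.log w ≠ 0 := by linarith
          field_simp
        have h10 : 5 * E * (s * ∑ p ∈ pr 0 w, Real.log p / p) ≤ 5 * E * (2 * t) :=
          mul_le_mul_of_nonneg_left (h8.trans h9.le) (by positivity)
        have h11 : 5 * E * (2 * t) = 10 * (Real.exp t - 1) := by
          rw [hE]
          field_simp
          ring
        linarith

/-- consequences of Rankin's bound -/
theorem tailsS {w M : ℕ} {t B : ℝ} (ht : 1 ≤ t) (hw : 10 * t ≤ Real.log w) (hM : 1 ≤ M)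
    (hB : B = Real.exp (10 * Real.exp t - t * (Real.log M / Real.log w))) :
    (∀ N : ℕ, ∑ m ∈ (Sm w N).filter (fun m => M < m), fw w m / m ≤ B) ∧
    (∀ N : ℕ, ∑ m ∈ (Sm w N).filter (fun m => M < m), fw w m / m * Real.log m ≤
      (Real.log M + Real.log w) * B) ∧
    ∑ m ∈ Sm w M, fw w m ≤ M * B := by
  have ht0 : 0 < t := by linarith
  have hM1 : (1 : ℝ) ≤ M := by exact_mod_cast hM
  have hM0 : (0 : ℝ) < M := by linarith
  have hlw : 10 ≤ Real.log w := by linarith
  set s : ℝ := t / Real.log w with hs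
  have hs0 : 0 < s := by positivity
  have hs1 : s ≤ 1 / 10 := by
    rw [hs, div_le_div_iff₀ (by linarith) (by norm_num)]
    linarith
  have hMs : 0 < (M : ℝ) ^ s := by positivity
  have hBe : Real.exp (10 * Real.exp t) / (M : ℝ) ^ s = B := by
    rw [hB, Real.rpow_def_of_pos hM0, ← Real.exp_sub, hs]
    congr 1
    ring
  have key : ∀ N : ℕ, ∑ m ∈ Sm w N, fw w m / m * ((m : ℝ) / M) ^ s ≤ B := by
    intro N
    refine le_trans (le_of_eq ?_) ((div_le_div_of_nonneg_right (rankinS w N ht hw) hMs.le).trans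
      (le_of_eq hBe))
    rw [sum_div]
    apply sum_congr rfl
    intro m _
    rw [Real.div_rpow (by positivity) hM0.le]
    ring
  have hlogM : 0 ≤ Real.log M := Real.log_nonneg hM1
  refine ⟨fun N => ?_, fun N => ?_, ?_⟩
  · refine le_trans ?_ (key N)
    refine (sum_le_sum (f := fun m : ℕ => fw w m / m)
      (g := fun m : ℕ => fw w m / m * ((m : ℝ) / M) ^ s) fun m hm => ?_).trans ?_
    · rw [mem_filter] at hm
      have h1 : (1 : ℝ) ≤ (m : ℝ) / M := by
        rw [le_div_iff₀ hM0, one_mul]; exact_mod_cast hm.2.le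
      have h2 : 1 ≤ ((m : ℝ) / M) ^ s := Real.one_le_rpow h1 hs0.le
      exact le_mul_of_one_le_right (div_nonneg (fw_nonneg w m) (by positivity)) h2
    · apply sum_le_sum_of_subset_of_nonneg (filter_subset _ _)
      intro m _ _
      exact mul_nonneg (div_nonneg (fw_nonneg w m) (by positivity)) (by positivity)
  · have h0 : ∑ m ∈ (Sm w N).filter (fun m => M < m), fw w m / m * Real.log m ≤
        (Real.log M + Real.log w) * ∑ m ∈ Sm w N, fw w m / m * ((m : ℝ) / M) ^ s := by
      rw [mul_sum]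
      refine (sum_le_sum (f := fun m : ℕ => fw w m / m * Real.log m)
        (g := fun m : ℕ => (Real.log M + Real.log w) * (fw w m / m * ((m : ℝ) / M) ^ s))
        fun m hm => ?_).trans ?_
      · rw [mem_filter] at hm
        have hm0 : (0 : ℝ) < m := by
          have : 0 < m := by omega
          exact_mod_cast this
        have h1 : (1 : ℝ) ≤ (m : ℝ) / M := by
          rw [le_div_iff₀ hM0, one_mul]; exact_mod_cast hm.2.le
        have h2 : 1 ≤ ((m : ℝ) / M) ^ s := Real.one_le_rpow h1 hs0.le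
        have h3 : Real.log m = Real.log M + Real.log ((m : ℝ) / M) := by
          rw [Real.log_div hm0.ne' hM0.ne']; ring
        have h4 : Real.log ((m : ℝ) / M) ≤ ((m : ℝ) / M) ^ s / s :=
          Real.log_le_rpow_div (by positivity) hs0
        have h5 : ((m : ℝ) / M) ^ s / s ≤ Real.log w * ((m : ℝ) / M) ^ s := by
          rw [div_le_iff₀ hs0]
          have h51 : Real.log w * s = t := by
            rw [hs]
            field_simp
          calc ((m : ℝ) / M) ^ s = 1 * ((m : ℝ) / M) ^ s := (one_mul _).symm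
            _ ≤ t * ((m : ℝ) / M) ^ s := mul_le_mul_of_nonneg_right ht (by positivity)
            _ = Real.log w * ((m : ℝ) / M) ^ s * s := by rw [← h51]; ring
        have h6 : Real.log m ≤ (Real.log M + Real.log w) * ((m : ℝ) / M) ^ s := by
          rw [h3, add_mul]
          have h7 : Real.log M * 1 ≤ Real.log M * ((m : ℝ) / M) ^ s :=
            mul_le_mul_of_nonneg_left h2 hlogM
          linarith
        calc fw w m / m * Real.log m ≤
            fw w m / m * ((Real.log M + Real.log w) * ((m : ℝ) / M) ^ s) :=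
              mul_le_mul_of_nonneg_left h6 (div_nonneg (fw_nonneg w m) (by positivity))
          _ = _ := by ring
      · apply sum_le_sum_of_subset_of_nonneg (filter_subset _ _)
        intro m _ _
        exact mul_nonneg (by linarith)
          (mul_nonneg (div_nonneg (fw_nonneg w m) (by positivity)) (by positivity))
    refine h0.trans ?_
    exact mul_le_mul_of_nonneg_left (key N) (by linarith)
  · have h0 : ∑ m ∈ Sm w M, fw w m ≤ M * ∑ m ∈ Sm w M, fw w m / m * ((m : ℝ) / M) ^ s := by
      rw [mul_sum]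
      apply sum_le_sum
      intro m hm
      rw [mem_Sm] at hm
      have hm1 : (1 : ℝ) ≤ m := by exact_mod_cast hm.1.1
      have hm0 : (0 : ℝ) < m := by linarith
      have h1 : (m : ℝ) / M ≤ 1 := by
        rw [div_le_one hM0]; exact_mod_cast hm.1.2
      have h2 : (m : ℝ) / M ≤ ((m : ℝ) / M) ^ s := by
        calc (m : ℝ) / M = ((m : ℝ) / M) ^ (1 : ℝ) := (Real.rpow_one _).symm
          _ ≤ _ := Real.rpow_le_rpow_of_exponent_ge (by positivity) h1 (by linarith)
      calc fw w m = M * (fw w m / m * ((m : ℝ) / M)) := by field_simp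
        _ ≤ M * (fw w m / m * ((m : ℝ) / M) ^ s) := by
            apply mul_le_mul_of_nonneg_left _ hM0.le
            exact mul_le_mul_of_nonneg_left h2 (div_nonneg (fw_nonneg w m) hm0.le)
    exact h0.trans (mul_le_mul_of_nonneg_left (key M) hM0.le)

/-- **The tails beyond `M`**, with `u = log M / log w`: at most `exp (- (1 - ε) u log u)`. -/
theorem tails2 {ε : ℝ} (hε : 0 < ε) {w M : ℕ} {u B : ℝ} (hu : u = Real.log M / Real.log w)
    (h1 : 1 ≤ Real.log u) (h10 : 10 ≤ ε * Real.log u) (hw : 10 * Real.log u ≤ Real.log w)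
    (hM : 1 ≤ M) (hB : B = Real.exp (-((1 - ε) * (u * Real.log u)))) :
    (∀ N : ℕ, ∑ m ∈ (Sm w N).filter (fun m => M < m), fw w m / m ≤ B) ∧
    (∀ N : ℕ, ∑ m ∈ (Sm w N).filter (fun m => M < m), fw w m / m * Real.log m ≤
      (Real.log M + Real.log w) * B) ∧
    ∑ m ∈ Sm w M, fw w m ≤ M * B := by
  have hlw : 10 ≤ Real.log w := by linarith
  have hlM : 0 ≤ Real.log M := Real.log_natCast_nonneg M
  have hu0 : 0 < u := by
    rcases (div_nonneg hlM (by linarith : (0:ℝ) ≤ Real.log w)).eq_or_lt with h | h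
    · rw [hu, ← h, Real.log_zero] at h1
      linarith
    · rw [hu]
      exact h
  obtain ⟨k1, k2, k3⟩ := tailsS (w := w) (M := M) (t := Real.log u)
    (B := Real.exp (10 * Real.exp (Real.log u) - Real.log u * (Real.log M / Real.log w))) h1 hw hM
    rfl
  have hle : Real.exp (10 * Real.exp (Real.log u) - Real.log u * (Real.log M / Real.log w)) ≤ B := by
    rw [hB, ← hu, Real.exp_log hu0]
    apply Real.exp_le_exp.mpr
    have : 10 * u ≤ ε * Real.log u * u := mul_le_mul_of_nonneg_right h10 hu0.le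
    linarith
  have hM0 : (0 : ℝ) ≤ M := Nat.cast_nonneg M
  exact ⟨fun N => (k1 N).trans hle,
    fun N => (k2 N).trans (mul_le_mul_of_nonneg_left hle (by linarith)),
    k3.trans (mul_le_mul_of_nonneg_left hle hM0)⟩

end RHC
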