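import Pool.Agent.H24.RHC.Crt
import Pool.Agent.H85.RHC.Cmp2
import Pool.Agent.H7.PNTE.Z7

/-!
# Compression of residue classes to large moduli: CRT form, shifted, with the constant `log 2`
-/

set_option autoImplicit false

open Finset

namespace Pool.RHC62

open Pool.RHC24

theorem AA_card2 {p : ℕ} (hp : p.Prime) (h3 : 3 ≤ p) (k : ℤ) :
    ((AA k p).card : ℝ) ≤ (1 + 1 / (p : ℝ)) / 2 * p := by
  classical
  have : Fact p.Prime := ⟨hp⟩
  have h1 : (AA k p).card ≤
      ((Finset.univ : Finset (ZMod p)).image (fun a => a * ((k : ZMod p) - a))).card := by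
    apply Finset.card_le_card_of_injOn (fun x : ℤ => (x : ZMod p))
    · intro x hx
      obtain ⟨a, ha, rfl⟩ := Finset.mem_image.1 hx
      refine Finset.mem_coe.2 (Finset.mem_image.2 ⟨(a : ZMod p), Finset.mem_univ _, ?_⟩)
      simp only [ZMod.intCast_mod]
      push_cast
      ring
    · intro x hx x' hx' h
      obtain ⟨a, ha, rfl⟩ := Finset.mem_image.1 hx
      obtain ⟨a', ha', rfl⟩ := Finset.mem_image.1 hx'
      simp only at h
      rw [ZMod.intCast_eq_intCast_iff] at h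
      have := h
      unfold Int.ModEq at this
      rw [Int.emod_emod_of_dvd _ (dvd_refl _), Int.emod_emod_of_dvd _ (dvd_refl _)] at this
      exact this
  have h2 := card_quad p h3 (k : ZMod p)
  have h4 : 2 * (AA k p).card ≤ p + 1 := by omega
  have h5 : 2 * ((AA k p).card : ℝ) ≤ p + 1 := by exact_mod_cast h4
  have h6 : (3 : ℝ) ≤ p := by exact_mod_cast h3
  have h7 : (1 + 1 / (p : ℝ)) / 2 * p = (p + 1) / 2 := by field_simp
  rw [h7]
  linarith

/-- integers in `(-y, y]` whose residues modulo all `p ∈ P` lie in `AA k p` -/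
noncomputable def WZ (y : ℕ) (P : Finset ℕ) (k : ℤ) : Finset ℤ :=
  (Finset.Ioc (-(y : ℤ)) y).filter (fun n => ∀ p ∈ P, (n % p) ∈ AA k p)

theorem WZ_card {y : ℕ} {P : Finset ℕ} (hP : ∀ p ∈ P, p.Prime ∧ 3 ≤ p) (hN : ∏ p ∈ P, p ≤ y)
    (k : ℤ) : ((WZ y P k).card : ℝ) ≤ 4 * y * ∏ p ∈ P, ((1 + 1 / (p : ℝ)) / 2) := by
  classical
  set N := ∏ p ∈ P, p with hNdef
  have hNpos : 0 < N := Finset.prod_pos fun p hp => (hP p hp).1.pos
  have hNz : (0 : ℤ) < N := by exact_mod_cast hNpos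
  have h1 : (WZ y P k).card ≤
      ((Finset.Icc (-((y / N : ℕ) : ℤ) - 1) ((y / N : ℕ) : ℤ)) ×ˢ
        (P.pi (fun p => AA k p))).card := by
    apply Finset.card_le_card_of_injOn
      (fun n : ℤ => ((n / N, fun p _ => n % (p : ℤ)) : ℤ × ((p : ℕ) → p ∈ P → ℤ)))
    · intro n hn
      obtain ⟨hn1, hn2⟩ := Finset.mem_filter.1 hn
      have hny := Finset.mem_Ioc.1 hn1
      refine Finset.mem_coe.2 (Finset.mem_product.2 ⟨?_, ?_⟩)
      · simp only [Finset.mem_Icc]
        have e1 := Int.mul_ediv_add_emod n N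
        have e2 := Int.emod_nonneg n hNz.ne'
        have e3 := Int.emod_lt_of_pos n hNz
        have e4 : ((y / N : ℕ) : ℤ) = (y : ℤ) / N := by norm_num
        have e5 := Int.mul_ediv_add_emod (y : ℤ) N
        have e6 := Int.emod_nonneg (y : ℤ) hNz.ne'
        have e7 := Int.emod_lt_of_pos (y : ℤ) hNz
        rw [e4]
        constructor
        · by_contra hcon
          push Not at hcon
          have h2 : n / (N : ℤ) + 1 + ((y : ℤ) / N + 1) ≤ 0 := by omega
          nlinarith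
        · exact Int.ediv_le_ediv hNz hny.2
      · rw [Finset.mem_pi]
        exact fun p hp => hn2 p hp
    · intro n _ n' _ h
      simp only [Prod.mk.injEq] at h
      obtain ⟨hd, hr⟩ := h
      have hdvd : (N : ℤ) ∣ n - n' := by
        rw [hNdef, Nat.cast_prod]
        apply Finset.prod_dvd_of_coprime
        · intro p hp p' hp' hne
          exact (Int.isCoprime_iff_gcd_eq_one).2 (by
            have := (Nat.coprime_primes (hP p hp).1 (hP p' hp').1).2 hne
            simpa using this)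
        · intro p hp
          have h2 := congrFun (congrFun hr p) hp
          exact Int.ModEq.dvd (show (n' : ℤ) ≡ n [ZMOD p] from h2.symm)
      have hmod : n % N = n' % N := by
        have h3 : n' ≡ n [ZMOD N] := Int.modEq_iff_dvd.2 hdvd
        exact h3.symm
      have e1 := Int.mul_ediv_add_emod n N
      have e2 := Int.mul_ediv_add_emod n' N
      rw [hd, hmod] at e1
      linarith
  rw [Finset.card_product, Int.card_Icc, Finset.card_pi] at h1
  have hc : (((y / N : ℕ) : ℤ) + 1 - (-((y / N : ℕ) : ℤ) - 1)).toNat = 2 * (y / N) + 2 := by omega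
  rw [hc] at h1
  have h2 : ((WZ y P k).card : ℝ) ≤ ((2 * (y / N) + 2 : ℕ) : ℝ) * ∏ p ∈ P, ((AA k p).card : ℝ) := by
    exact_mod_cast h1
  have h3 : ∏ p ∈ P, ((AA k p).card : ℝ) ≤ ∏ p ∈ P, ((1 + 1 / (p : ℝ)) / 2 * (p : ℝ)) :=
    Finset.prod_le_prod (fun p _ => Nat.cast_nonneg _)
      fun p hp => AA_card2 (hP p hp).1 (hP p hp).2 k
  have h4 : ∏ p ∈ P, ((1 + 1 / (p : ℝ)) / 2 * (p : ℝ)) =
      (∏ p ∈ P, ((1 + 1 / (p : ℝ)) / 2)) * N := by
    rw [Finset.prod_mul_distrib, hNdef]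
    push_cast
    rfl
  have h5 : ((2 * (y / N) + 2 : ℕ) : ℝ) * N ≤ 4 * y := by
    have h6 : (2 * (y / N) + 2) * N ≤ 4 * y := by
      have := Nat.div_mul_le_self y N
      nlinarith
    exact_mod_cast h6
  have hpos : 0 ≤ ∏ p ∈ P, ((1 + 1 / (p : ℝ)) / 2) := Finset.prod_nonneg fun p _ => by positivity
  calc ((WZ y P k).card : ℝ) ≤
        ((2 * (y / N) + 2 : ℕ) : ℝ) * ∏ p ∈ P, ((AA k p).card : ℝ) := h2
    _ ≤ ((2 * (y / N) + 2 : ℕ) : ℝ) * ((∏ p ∈ P, ((1 + 1 / (p : ℝ)) / 2)) * N) := by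
        rw [← h4]
        exact mul_le_mul_of_nonneg_left h3 (Nat.cast_nonneg _)
    _ = (((2 * (y / N) + 2 : ℕ) : ℝ) * N) * ∏ p ∈ P, ((1 + 1 / (p : ℝ)) / 2) := by ring
    _ ≤ 4 * y * ∏ p ∈ P, ((1 + 1 / (p : ℝ)) / 2) := mul_le_mul_of_nonneg_right h5 hpos

/-- **Compression**, shifted. -/
theorem crt_unionZ (y K : ℕ) (P : Finset ℕ) (hP : ∀ p ∈ P, p.Prime ∧ 3 ≤ p)
    (hN : ∏ p ∈ P, p ≤ y) : ∃ U : Finset ℤ,
    (U.card : ℝ) ≤ (4 * K + 1) * (4 * y * ∏ p ∈ P, ((1 + 1 / (p : ℝ)) / 2)) ∧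
    ∀ q : ℕ, 1 ≤ q → y ≤ K * q → ∃ x : ℕ, ∀ s < y, ∀ n ∈ Finset.Icc 1 y,
      n ≡ x + s [MOD q] → (n : ℤ) - (s : ℤ) ∈ U := by
  classical
  set N := ∏ p ∈ P, p with hNdef
  have hNpos : 0 < N := Finset.prod_pos fun p hp => (hP p hp).1.pos
  have hNz : (0 : ℤ) < N := by exact_mod_cast hNpos
  refine ⟨(Finset.Icc (-(2 * K : ℤ)) (2 * K)).biUnion (fun k => WZ y P k), ?_, ?_⟩
  · have h1 : (((Finset.Icc (-(2 * K : ℤ)) (2 * K)).biUnion (fun k => WZ y P k)).card : ℝ) ≤
        ∑ k ∈ Finset.Icc (-(2 * K : ℤ)) (2 * K), ((WZ y P k).card : ℝ) := by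
      exact_mod_cast Finset.card_biUnion_le
    refine h1.trans ?_
    refine (Finset.sum_le_card_nsmul _ _ _ (fun k _ => WZ_card hP hN k)).trans ?_
    rw [nsmul_eq_mul, Int.card_Icc]
    have h2 : ((2 * K : ℤ) + 1 - -(2 * K : ℤ)).toNat = 4 * K + 1 := by omega
    rw [h2]
    push_cast
    exact le_rfl
  · intro q hq hyq
    refine ⟨((-((q : ℤ) ^ 2)) % N).toNat, ?_⟩
    set r : ℕ := ((-((q : ℤ) ^ 2)) % N).toNat with hr
    have hr0 : 0 ≤ (-((q : ℤ) ^ 2)) % N := Int.emod_nonneg _ hNz.ne'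
    have hrz : (r : ℤ) = (-((q : ℤ) ^ 2)) % N := Int.toNat_of_nonneg hr0
    have hrN : (r : ℤ) < N := by rw [hrz]; exact Int.emod_lt_of_pos _ hNz
    intro s hs n hn hmod
    have hn' := Finset.mem_Icc.1 hn
    have hdvd : (q : ℤ) ∣ (n : ℤ) - (r + s : ℕ) := by
      have := (Int.natCast_modEq_iff).2 hmod
      exact Int.ModEq.dvd this.symm
    obtain ⟨k, hk⟩ := hdvd
    push_cast at hk
    have hqz : (1 : ℤ) ≤ q := by exact_mod_cast hq
    have hyz : (y : ℤ) ≤ K * q := by exact_mod_cast hyq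
    have hNy : (N : ℤ) ≤ y := by exact_mod_cast hN
    have hnz : (n : ℤ) ≤ y := by exact_mod_cast hn'.2
    have hn1 : (1 : ℤ) ≤ n := by exact_mod_cast hn'.1
    have hsz : (s : ℤ) < y := by exact_mod_cast hs
    have hs0 : (0 : ℤ) ≤ s := by positivity
    have hr0' : (0 : ℤ) ≤ r := by positivity
    have hkK : k ∈ Finset.Icc (-(2 * K : ℤ)) (2 * K) := by
      rw [Finset.mem_Icc]
      constructor
      · by_contra hcon
        push Not at hcon
        have h1 : k + 1 ≤ -(2 * K : ℤ) := by omega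
        nlinarith
      · by_contra hcon
        push Not at hcon
        have h1 : (2 * K : ℤ) + 1 ≤ k := by omega
        nlinarith
    refine Finset.mem_biUnion.2 ⟨k, hkK, Finset.mem_filter.2 ⟨?_, fun p hp => ?_⟩⟩
    · rw [Finset.mem_Ioc]
      constructor <;> linarith
    have hpN : (p : ℤ) ∣ N := by
      rw [hNdef]
      exact_mod_cast Finset.dvd_prod_of_mem (fun x => x) hp
    have hr2 : (r : ℤ) ≡ -((q : ℤ) ^ 2) [ZMOD p] := by
      rw [hrz]
      exact (Int.mod_modEq _ _).of_dvd hpN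
    have hn2 : (n : ℤ) - s ≡ (q : ℤ) * (k - q) [ZMOD p] := by
      have e : (n : ℤ) - s = r + q * k := by linarith
      rw [e]
      calc (r : ℤ) + q * k ≡ -((q : ℤ) ^ 2) + q * k [ZMOD p] := hr2.add_right _
        _ = q * (k - q) := by ring
    have h3 := mem_AA (hP p hp).1.pos k q
    have h4 : ((n : ℤ) - s) % p = (q * (k - q)) % p := hn2
    rw [h4]
    exact h3

/-- **Compression on a given set.** -/
theorem crt_set (y K : ℕ) (hy : 1 ≤ y) (P : Finset ℕ) (hP : ∀ p ∈ P, p.Prime ∧ 3 ≤ p)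
    (hN : ∏ p ∈ P, p ≤ y) (S : Finset ℕ) (hS : S ⊆ Finset.Icc 1 y) : ∃ D ⊆ S,
    (D.card : ℝ) ≤ 4 * (4 * K + 1) * (∏ p ∈ P, ((1 + 1 / (p : ℝ)) / 2)) * S.card ∧
    ∀ q : ℕ, 1 ≤ q → y ≤ K * q → ∃ r : ℕ, ∀ n ∈ S, n ≡ r [MOD q] → n ∈ D := by
  classical
  obtain ⟨U, hU, hq⟩ := crt_unionZ y K P hP hN
  obtain ⟨s, hs, hsc⟩ := RHC.shift hy S U
  refine ⟨S.filter (fun n : ℕ => (n : ℤ) - (s : ℤ) ∈ U), filter_subset _ _, ?_, ?_⟩
  · have hy0 : (0 : ℝ) < y := by exact_mod_cast hy
    have h1 : ((S.filter (fun n : ℕ => (n : ℤ) - (s : ℤ) ∈ U)).card : ℝ) * y ≤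
        S.card * U.card := by exact_mod_cast hsc
    have h2 : (S.card : ℝ) * U.card ≤ S.card *
        ((4 * K + 1) * (4 * y * ∏ p ∈ P, ((1 + 1 / (p : ℝ)) / 2))) :=
      mul_le_mul_of_nonneg_left hU (Nat.cast_nonneg _)
    have h3 : ((S.filter (fun n : ℕ => (n : ℤ) - (s : ℤ) ∈ U)).card : ℝ) * y ≤
        (4 * (4 * K + 1) * (∏ p ∈ P, ((1 + 1 / (p : ℝ)) / 2)) * S.card) * y := by
      refine (h1.trans h2).trans (le_of_eq ?_)
      ring
    exact le_of_mul_le_mul_right h3 hy0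
  · intro q hq1 hyq
    obtain ⟨x, hx⟩ := hq q hq1 hyq
    exact ⟨x + s, fun n hn hm => mem_filter.2 ⟨hn, hx s hs n (hS hn) hm⟩⟩

theorem PO_prod2 (w : ℕ) : ((∏ p ∈ PO w, p : ℕ) : ℝ) ≤ Real.exp (Chebyshev.theta w) := by
  have h1 : ∏ p ∈ PO w, p ≤ primorial w := by
    unfold primorial
    apply Finset.prod_le_prod_of_subset_of_one_le'
    · intro p hp
      have h := Finset.mem_filter.1 hp
      exact Finset.mem_filter.2 ⟨h.1, h.2.1⟩
    · intro p hp _
      exact (Finset.mem_filter.1 hp).2.one_le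
  rw [Chebyshev.theta_eq_log_primorial, Nat.floor_natCast, Real.exp_log (by
    exact_mod_cast primorial_pos w)]
  exact_mod_cast h1

theorem tel (w : ℕ) : ∏ p ∈ Finset.Ico 1 (w + 1), (1 + 1 / (p : ℝ)) = w + 1 := by
  induction w with
  | zero => simp
  | succ w ih =>
    rw [Finset.prod_Ico_succ_top (by omega), ih]
    push_cast
    field_simp

theorem PO_half (w : ℕ) : ∏ p ∈ PO w, ((1 + 1 / (p : ℝ)) / 2) ≤
    (w + 1) * (1 / 2 : ℝ) ^ (PO w).card := by
  classical
  have h1 : ∏ p ∈ PO w, ((1 + 1 / (p : ℝ)) / 2) =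
      (∏ p ∈ PO w, (1 + 1 / (p : ℝ))) * (1 / 2 : ℝ) ^ (PO w).card := by
    rw [← Finset.prod_const, ← Finset.prod_mul_distrib]
    exact Finset.prod_congr rfl fun p _ => by ring
  rw [h1]
  apply mul_le_mul_of_nonneg_right _ (by positivity)
  have h2 : ∏ p ∈ PO w, (1 + 1 / (p : ℝ)) ≤ ∏ p ∈ Finset.Ico 1 (w + 1), (1 + 1 / (p : ℝ)) := by
    apply Finset.prod_le_prod_of_subset_of_one_le
    · intro p hp
      have h := Finset.mem_filter.1 hp
      rw [Finset.mem_Ico]
      exact ⟨h.2.1.one_le, Finset.mem_range.1 h.1⟩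
    · intro p _
      positivity
    · intro p hp _
      have : (0 : ℝ) ≤ 1 / (p : ℝ) := by positivity
      linarith
  exact h2.trans (le_of_eq (tel w))

/-- **All large moduli are free on a given set**: every `c + d < log 2`. -/
theorem free3 {c d : ℝ} (hc : 0 < c) (hd : 0 < d) (hcd : c + d < Real.log 2) :
    ∀ᶠ y : ℕ in Filter.atTop, ∀ S ⊆ Finset.Icc 1 y, ∃ D ⊆ S,
      (D.card : ℝ) ≤ (y : ℝ) ^ (-(d / Real.log (Real.log y))) * S.card ∧
      ∀ q : ℕ, (y : ℝ) ^ (1 - c / Real.log (Real.log y)) ≤ q →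
        ∃ r : ℕ, ∀ n ∈ S, n ≡ r [MOD q] → n ∈ D := by
  have hl2 := Real.log_two_lt_d9
  set e : ℝ := (Real.log 2 - c - d) / 8 with he
  have he0 : 0 < e := by rw [he]; linarith
  have he1 : e < 1 / 8 := by rw [he]; linarith
  obtain ⟨C1, hC1, hth⟩ := PNTE.theta_pnt 1
  obtain ⟨C2, x0, hC2, hpi⟩ := PNTE.pi_pnt
  have hev : ∀ᶠ L : ℝ in Filter.atTop, 1 ≤ Real.log L ∧ x0 + 2 ≤ (1 - e) * L - 1 ∧
      C1 / e ≤ Real.log ((1 - e) * L - 1) ∧ C2 / e ≤ Real.log ((1 - e) * L - 1) ∧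
      3 ≤ (1 - e) * L - 1 ∧ 2 ≤ e * L ∧
      4 * 9 * 2 * L ≤ Real.exp (e * (L / Real.log L)) ∧ 1 ≤ e * (L / Real.log L) := by
    have hlin : Filter.Tendsto (fun L : ℝ => (1 - e) * L - 1) Filter.atTop Filter.atTop := by
      apply Filter.tendsto_atTop_add_const_right
      exact Filter.Tendsto.const_mul_atTop (by linarith) Filter.tendsto_id
    have hlog := Real.tendsto_log_atTop.comp hlin
    have hexp2 : ∀ᶠ v : ℝ in Filter.atTop, 6 * v ^ 2 ≤ e * Real.exp v := by
      have h2 := (isLittleO_pow_exp_pos_mul_atTop 2 (by norm_num : (0 : ℝ) < 1)).bound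
        (c := e / 6) (by positivity)
      filter_upwards [h2] with v hv
      rw [Real.norm_of_nonneg (sq_nonneg v), Real.norm_of_nonneg (Real.exp_pos _).le,
        one_mul] at hv
      linarith
    filter_upwards [Real.tendsto_log_atTop.eventually_ge_atTop 1,
      hlin.eventually_ge_atTop (x0 + 2), hlog.eventually_ge_atTop (C1 / e),
      hlog.eventually_ge_atTop (C2 / e), hlin.eventually_ge_atTop 3,
      Filter.eventually_ge_atTop (2 / e), Real.tendsto_log_atTop.eventually hexp2,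
      Filter.eventually_gt_atTop 0] with L h1 h2 h3 h4 h5 h6 h7 h8
    simp only [Function.comp] at h3 h4
    rw [Real.exp_log h8] at h7
    have hl0 : 0 < Real.log L := by linarith
    have h9 : 5 + Real.log L ≤ e * (L / Real.log L) := by
      rw [← mul_div_assoc, le_div_iff₀ hl0]
      nlinarith
    refine ⟨h1, h2, h3, h4, h5, ?_, ?_, by linarith⟩
    · rw [div_le_iff₀ he0] at h6
      linarith
    · have h10 : (72 : ℝ) ≤ Real.exp 5 := by
        have h11 : (2.7 : ℝ) ≤ Real.exp 1 := by have := Real.exp_one_gt_d9; linarith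
        have h12 : Real.exp 5 = (Real.exp 1) ^ 5 := by rw [← Real.exp_nat_mul]; norm_num
        rw [h12]
        calc (72 : ℝ) ≤ 2.7 ^ 5 := by norm_num
          _ ≤ _ := pow_le_pow_left₀ (by norm_num) h11 5
      calc 4 * 9 * 2 * L = 72 * Real.exp (Real.log L) := by rw [Real.exp_log h8]; ring
        _ ≤ Real.exp 5 * Real.exp (Real.log L) := by gcongr
        _ = Real.exp (5 + Real.log L) := by rw [Real.exp_add]
        _ ≤ _ := Real.exp_le_exp.2 h9
  have hL : Filter.Tendsto (fun y : ℕ => Real.log (y : ℝ)) Filter.atTop Filter.atTop :=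
    Real.tendsto_log_atTop.comp tendsto_natCast_atTop_atTop
  filter_upwards [hL.eventually hev, Filter.eventually_ge_atTop 1] with y hy hy1 S hS
  obtain ⟨hl1, hx0, hA1, hA2, h3, hwL, hbig, hone⟩ := hy
  have hy0 : (0 : ℝ) < y := by exact_mod_cast hy1
  set L := Real.log (y : ℝ) with hLdef
  have hexp : Real.exp L = y := Real.exp_log hy0
  set l := Real.log L with hldef
  have hl0 : 0 < l := by linarith
  have hL0 : 0 < L := by nlinarith
  have hpow : ∀ t : ℝ, (y : ℝ) ^ (t / l) = Real.exp (t * (L / l)) := by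
    intro t
    rw [Real.rpow_def_of_pos hy0, ← hLdef]
    congr 1
    ring
  have hpow1 : (y : ℝ) ^ (1 - c / l) = y * Real.exp (-(c * (L / l))) := by
    rw [sub_eq_add_neg, Real.rpow_add hy0, Real.rpow_one, ← neg_div, hpow]
    congr 2
    ring
  have hpow2 : (y : ℝ) ^ (-(d / l)) = Real.exp (-(d * (L / l))) := by
    rw [← neg_div, hpow]
    congr 1
    ring
  set w := ⌊(1 - e) * L⌋₊ with hw
  have hw1 : (w : ℝ) ≤ (1 - e) * L := Nat.floor_le (by nlinarith)
  have hw2 : (1 - e) * L - 1 < w := by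
    have := Nat.lt_floor_add_one ((1 - e) * L)
    linarith
  have hw3 : (3 : ℝ) < w := by linarith
  have hlw0 : 0 < Real.log w := Real.log_pos (by linarith)
  have hlwA : Real.log ((1 - e) * L - 1) ≤ Real.log w :=
    Real.log_le_log (by linarith) hw2.le
  have hwleL : (w : ℝ) ≤ L := by nlinarith
  have hlwl : Real.log w ≤ l := Real.log_le_log (by linarith) hwleL
  -- the product of the primes
  have hN : ∏ p ∈ PO w, p ≤ y := by
    have h1 := PO_prod2 w
    have h2 := (abs_le.mp (hth w (by linarith))).2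
    rw [pow_one] at h2
    have h4 : C1 * w / Real.log w ≤ e * w := by
      rw [div_le_iff₀ hlw0]
      have h5 : C1 ≤ e * Real.log w := by
        have : C1 / e ≤ Real.log w := hA1.trans hlwA
        rwa [div_le_iff₀ he0, mul_comm] at this
      nlinarith
    have h5 : Chebyshev.theta w ≤ L := by
      have h6 : Chebyshev.theta w ≤ (1 + e) * w := by linarith
      refine h6.trans ?_
      calc (1 + e) * (w : ℝ) ≤ (1 + e) * ((1 - e) * L) :=
            mul_le_mul_of_nonneg_left hw1 (by linarith)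
        _ = L - e ^ 2 * L := by ring
        _ ≤ L := by nlinarith [mul_pos (pow_pos he0 2) hL0]
    have h6 : ((∏ p ∈ PO w, p : ℕ) : ℝ) ≤ y := by
      rw [← hexp]
      exact h1.trans (Real.exp_le_exp.2 h5)
    exact_mod_cast h6
  -- the number of primes
  have hcard : (1 - 3 * e) * (L / l) - 1 ≤ ((PO w).card : ℝ) := by
    have h1 := (abs_le.mp (hpi w (by linarith))).1
    rw [Nat.floor_natCast] at h1
    have h2 : (Nat.primeCounting w : ℝ) ≤ (PO w).card + 1 := by exact_mod_cast PO_card w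
    have h4 : C2 * w / (Real.log w) ^ 2 ≤ e * (w / Real.log w) := by
      rw [div_le_iff₀ (by positivity)]
      have h5 : C2 ≤ e * Real.log w := by
        have : C2 / e ≤ Real.log w := hA2.trans hlwA
        rwa [div_le_iff₀ he0, mul_comm] at this
      have h6 : e * (w / Real.log w) * (Real.log w) ^ 2 = (e * Real.log w) * w := by
        field_simp
      rw [h6]
      exact mul_le_mul_of_nonneg_right h5 (by linarith)
    have h5 : (1 - e) * (w / Real.log w) ≤ (PO w).card + 1 := by linarith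
    have h6 : (1 - 2 * e) * (L / l) ≤ w / Real.log w := by
      have h7 : (1 - 2 * e) * L ≤ w := by linarith
      calc (1 - 2 * e) * (L / l) = ((1 - 2 * e) * L) / l := by ring
        _ ≤ w / l := div_le_div_of_nonneg_right h7 hl0.le
        _ ≤ w / Real.log w := div_le_div_of_nonneg_left (by linarith) hlw0 hlwl
    have h7 : (1 - e) * ((1 - 2 * e) * (L / l)) ≤ (1 - e) * (w / Real.log w) :=
      mul_le_mul_of_nonneg_left h6 (by linarith)
    have h8 : (1 - 3 * e) * (L / l) ≤ (1 - e) * ((1 - 2 * e) * (L / l)) := by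
      have h9 : 0 ≤ L / l := by positivity
      nlinarith [mul_nonneg (sq_nonneg e) h9]
    linarith
  have hPp : ∀ p ∈ PO w, p.Prime ∧ 3 ≤ p := fun p hp => (Finset.mem_filter.1 hp).2
  set K := ⌈Real.exp (c * (L / l))⌉₊ with hK
  have hLl : 0 < L / l := by positivity
  have hK1 : Real.exp (c * (L / l)) ≤ K := Nat.le_ceil _
  have hK2 : (K : ℝ) ≤ Real.exp (c * (L / l)) + 1 := (Nat.ceil_lt_add_one (by positivity)).le
  have hE1 : 1 ≤ Real.exp (c * (L / l)) := Real.one_le_exp (by positivity)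
  obtain ⟨D, hDS, hDc, hDq⟩ := crt_set y K hy1 (PO w) hPp hN S hS
  refine ⟨D, hDS, ?_, ?_⟩
  · refine hDc.trans (mul_le_mul_of_nonneg_right ?_ (Nat.cast_nonneg _))
    rw [hpow2]
    have h1 : (1 / 2 : ℝ) ^ (PO w).card ≤
        2 * Real.exp (-(Real.log 2 * ((1 - 3 * e) * (L / l)))) := by
      have h2 : (1 / 2 : ℝ) = Real.exp (-Real.log 2) := by
        rw [Real.exp_neg, Real.exp_log (by norm_num)]
        norm_num
      calc (1 / 2 : ℝ) ^ (PO w).card = Real.exp ((PO w).card * (-Real.log 2)) := by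
            rw [h2, ← Real.exp_nat_mul]
        _ ≤ Real.exp (Real.log 2 + -(Real.log 2 * ((1 - 3 * e) * (L / l)))) := by
            apply Real.exp_le_exp.2
            have h4 : 0 < Real.log 2 := Real.log_pos (by norm_num)
            nlinarith
        _ = _ := by rw [Real.exp_add, Real.exp_log (by norm_num)]
    have h3 : (4 * (K : ℝ) + 1) ≤ 9 * Real.exp (c * (L / l)) := by linarith
    have h4 : ((w : ℝ) + 1) ≤ L := by nlinarith
    have h5 := PO_half w
    have h6 : 0 ≤ ∏ p ∈ PO w, ((1 + 1 / (p : ℝ)) / 2) :=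
      Finset.prod_nonneg fun p _ => by positivity
    calc 4 * (4 * (K : ℝ) + 1) * (∏ p ∈ PO w, ((1 + 1 / (p : ℝ)) / 2)) ≤
        4 * (9 * Real.exp (c * (L / l))) * ((w + 1) * (1 / 2 : ℝ) ^ (PO w).card) := by gcongr
      _ ≤ 4 * (9 * Real.exp (c * (L / l))) *
          (L * (2 * Real.exp (-(Real.log 2 * ((1 - 3 * e) * (L / l)))))) := by gcongr
      _ = (4 * 9 * 2 * L) * (Real.exp (c * (L / l)) *
          Real.exp (-(Real.log 2 * ((1 - 3 * e) * (L / l))))) := by ring
      _ ≤ Real.exp (e * (L / l)) * (Real.exp (c * (L / l)) *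
          Real.exp (-(Real.log 2 * ((1 - 3 * e) * (L / l))))) := by gcongr
      _ ≤ Real.exp (-(d * (L / l))) := by
          rw [← Real.exp_add, ← Real.exp_add]
          apply Real.exp_le_exp.2
          have h7 : Real.log 2 = 8 * e + c + d := by rw [he]; ring
          have h8 : e + c - Real.log 2 * (1 - 3 * e) ≤ -d := by
            nlinarith
          have h9 := mul_le_mul_of_nonneg_right h8 hLl.le
          linarith
  · intro q hq
    rw [hpow1] at hq
    have hq0 : (0 : ℝ) < q := lt_of_lt_of_le (by positivity) hq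
    have hq1 : 1 ≤ q := by exact_mod_cast hq0
    apply hDq q hq1
    have h1 : (y : ℝ) ≤ K * q := by
      calc (y : ℝ) = Real.exp (c * (L / l)) * (y * Real.exp (-(c * (L / l)))) := by
            rw [Real.exp_neg]
            field_simp
        _ ≤ K * q := by gcongr
    exact_mod_cast h1

end Pool.RHC62
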