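import Pool.Agent.H62.RHC.Crt2

/-!
# All moduli above `y ^ (1 - c / log log y)` are free, `c < log 2`: the reduction
-/

set_option autoImplicit false

open Finset

namespace Pool.RHC62

/-- All large moduli are free on every set, and the reduction of admissible sets to small
primes: for all `c, d > 0` with `c + d < log 2`. -/
theorem red3 : ∀ c d : ℝ, 0 < c → 0 < d → c + d < Real.log 2 → ∃ Y : ℕ, ∀ y : ℕ, Y ≤ y →
    ∀ S : Finset ℕ, S ⊆ Finset.Icc 1 y →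
      (∃ D : Finset ℕ, D ⊆ S ∧
        (D.card : ℝ) ≤ (y : ℝ) ^ (-(d / Real.log (Real.log y))) * S.card ∧
        ∀ q : ℕ, (y : ℝ) ^ (1 - c / Real.log (Real.log y)) ≤ q →
          ∃ r : ℕ, ∀ n ∈ S, n ≡ r [MOD q] → n ∈ D) ∧
      ((∀ p : ℕ, p.Prime → (p : ℝ) < (y : ℝ) ^ (1 - c / Real.log (Real.log y)) →
          ∃ r : ℕ, ∀ a ∈ S, ¬ a ≡ r [MOD p]) →
        ∃ A : Finset ℕ, A ⊆ S ∧
          (∀ p : ℕ, p.Prime → ∃ r : ℕ, ∀ a ∈ A, ¬ a ≡ r [MOD p]) ∧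
          (∀ q : ℕ, (y : ℝ) ^ (1 - c / Real.log (Real.log y)) ≤ q →
            ∃ r : ℕ, ∀ a ∈ A, ¬ a ≡ r [MOD q]) ∧
          (1 - (y : ℝ) ^ (-(d / Real.log (Real.log y)))) * S.card ≤ A.card) := by
  classical
  intro c d hc hd hcd
  obtain ⟨Y, hY⟩ := Filter.eventually_atTop.1 (free3 hc hd hcd)
  refine ⟨Y, fun y hy S hS => ?_⟩
  obtain ⟨D, hDS, hDc, hq⟩ := hY y hy S hS
  refine ⟨⟨D, hDS, hDc, hq⟩, fun hp => ?_⟩
  have hlarge : ∀ q : ℕ, (y : ℝ) ^ (1 - c / Real.log (Real.log y)) ≤ q →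
      ∃ r : ℕ, ∀ a ∈ S \ D, ¬ a ≡ r [MOD q] := by
    intro q hqy
    obtain ⟨r, hr⟩ := hq q hqy
    refine ⟨r, fun a ha har => ?_⟩
    rw [Finset.mem_sdiff] at ha
    exact ha.2 (hr a ha.1 har)
  refine ⟨S \ D, Finset.sdiff_subset, ?_, hlarge, ?_⟩
  · intro p hpp
    rcases lt_or_ge (p : ℝ) ((y : ℝ) ^ (1 - c / Real.log (Real.log y))) with h | h
    · obtain ⟨r, hr⟩ := hp p hpp h
      exact ⟨r, fun a ha => hr a (Finset.mem_sdiff.1 ha).1⟩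
    · exact hlarge p h
  · have h1 : (S \ D).card + D.card = S.card := Finset.card_sdiff_add_card_eq_card hDS
    have h3 : ((S \ D).card : ℝ) + D.card = S.card := by exact_mod_cast h1
    linarith

end Pool.RHC62
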